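import Pool.Agent.Lib.AM.SpecH

set_option linter.all false

/-!
# AM, part H: dependence on the orders, averaging over one coordinate
-/

namespace Pool.Agent.AM

open Finset Pool.Agent.MP_a4c1f4_lc Pool.Agent.MP_a4c1f4_lc.Dbl

private theorem HDep_ff {X K : Type} [Fintype X] [DecidableEq X] [Nonempty X] [Fintype K]
    [DecidableEq K] [Nonempty K] (sg : K → X) (q q' : ℕ → Equiv.Perm X) (A F : Finset K) (i : ℕ)
    (h : ∀ j < i, q j = q' j) : FF sg q A F i = FF sg q' A F i := by
  induction i with
  | zero => rfl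
  | succ i ih =>
    have h1 := ih (fun j hj => h j (Nat.lt_succ_of_lt hj))
    have h2 := h i (Nat.lt_succ_self i)
    change FF sg q A F i ∪ tp (YP sg (q i)) (A \ FF sg q A F i) 1 =
      FF sg q' A F i ∪ tp (YP sg (q' i)) (A \ FF sg q' A F i) 1
    rw [h1, h2]

private theorem HDep_ww {X K : Type} [Fintype X] [DecidableEq X] [Nonempty X] [Fintype K]
    [DecidableEq K] [Nonempty K] (sg : K → X) (q q' : ℕ → Equiv.Perm X) (A F : Finset K) (y : K)
    (i : ℕ) (h : ∀ j < i, q j = q' j) : ww sg q A F y i = ww sg q' A F y i := by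
  induction i with
  | zero => rfl
  | succ i ih =>
    have h1 := ih (fun j hj => h j (Nat.lt_succ_of_lt hj))
    have h2 := h i (Nat.lt_succ_self i)
    have h3 := HDep_ff sg q q' A F i (fun j hj => h j (Nat.lt_succ_of_lt hj))
    change nx (YP sg (q i)) (A \ FF sg q A F i) 1 (ww sg q A F y i) =
      nx (YP sg (q' i)) (A \ FF sg q' A F i) 1 (ww sg q' A F y i)
    rw [h1, h2, h3]

private theorem HDep_inv {P : Type} (k : ℕ) (i : Fin k) (a : (Fin k → P) × P) :
    (Function.update (Function.update a.1 i a.2) i (a.1 i), Function.update a.1 i a.2 i) = a := by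
  rw [Function.update_idem, Function.update_eq_self, Function.update_self]

private theorem HDep_avg (P : Type) [Fintype P] [Nonempty P] (k : ℕ) (i : Fin k)
    (f : (Fin k → P) → ℝ) :
    (Fintype.card P : ℝ) * ∑ q : Fin k → P, f q =
      ∑ q : Fin k → P, ∑ p : P, f (Function.update q i p) := by
  let e : (Fin k → P) × P ≃ (Fin k → P) × P :=
    { toFun := fun a => (Function.update a.1 i a.2, a.1 i)
      invFun := fun a => (Function.update a.1 i a.2, a.1 i)
      left_inv := fun a => HDep_inv k i a
      right_inv := fun a => HDep_inv k i a }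
  have h1 : ∑ a : (Fin k → P) × P, f (e a).1 = ∑ a : (Fin k → P) × P, f a.1 :=
    Equiv.sum_comp e (fun a => f a.1)
  have h2 : ∑ a : (Fin k → P) × P, f a.1 = (Fintype.card P : ℝ) * ∑ q : Fin k → P, f q := by
    rw [Fintype.sum_prod_type, Finset.mul_sum]
    refine Finset.sum_congr rfl fun q _ => ?_
    change ∑ _y : P, f q = (Fintype.card P : ℝ) * f q
    rw [Finset.sum_const, Finset.card_univ, nsmul_eq_mul]
  have h3 : ∑ a : (Fin k → P) × P, f (e a).1 =
      ∑ q : Fin k → P, ∑ p : P, f (Function.update q i p) := by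
    rw [Fintype.sum_prod_type]
    rfl
  rw [← h2, ← h1, h3]

/-- (H4) -/
theorem depP : DepProp := by
  refine ⟨?_, ?_⟩
  · intro X K _ _ _ _ _ _ sg q q' A F y i h
    exact ⟨HDep_ff sg q q' A F i h, HDep_ww sg q q' A F y i h⟩
  · intro P _ _ k i f
    exact HDep_avg P k i f

end Pool.Agent.AM
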