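import Pool.Agent.Lib.AM.SpecH
import Mathlib.NumberTheory.Harmonic.Bounds

set_option linter.all false

namespace Pool.Agent.AM

open Finset Pool.Agent.MP_a4c1f4_lc Pool.Agent.MP_a4c1f4_lc.Dbl

/-- **Hn**: expected number of changes of the site of one token in one step. -/
theorem hnP (hPm : PermProp) (hSc : SchProp) : HnProp := by
  intro X K _ _ _ _ _ _ sg B w
  refine ⟨?_, ?_, ?_⟩
  · intro hw hB
    by_cases hex : ∃ v ∈ B, v ≠ w ∧ sg v = sg w
    · have h0 : ∀ p : Equiv.Perm X, ind (sg (nx (YP sg p) B 1 w) ≠ sg w) = 0 := by
        intro p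
        apply ind_false
        intro hne
        obtain ⟨v, hv, hvw, hs⟩ := hex
        exact (hSc X K sg p B w hw hB hne).2 v hv hvw hs
      rw [Finset.sum_eq_zero (fun p _ => h0 p)]
      refine mul_nonneg (Nat.cast_nonneg _) ?_
      rw [sub_nonneg]
      unfold Hn
      refine Finset.sum_le_sum_of_subset_of_nonneg ?_ (fun k _ _ => by positivity)
      exact Finset.range_subset_range.2
        (Finset.card_le_card (Finset.image_subset_image (Finset.erase_subset _ _)))
    · push Not at hex
      have himg : (B.erase w).image sg = (B.image sg).erase (sg w) := by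
        ext s
        simp only [Finset.mem_image, Finset.mem_erase]
        constructor
        · rintro ⟨v, ⟨hvw, hv⟩, rfl⟩
          exact ⟨hex v hv hvw, v, hv, rfl⟩
        · rintro ⟨hs, v, hv, rfl⟩
          exact ⟨v, ⟨fun h => hs (by rw [h]), hv⟩, rfl⟩
      have hmem : sg w ∈ B.image sg := Finset.mem_image_of_mem sg hw
      have hcard : (B.image sg).card = ((B.erase w).image sg).card + 1 := by
        rw [himg]
        exact (Finset.card_erase_add_one hmem).symm
      have hHn : Hn sg B - Hn sg (B.erase w) = 1 / ((B.image sg).card : ℝ) := by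
        unfold Hn
        rw [hcard, Finset.sum_range_succ]
        push_cast
        ring
      have hpos : (0 : ℝ) < ((B.image sg).card : ℝ) := by
        rw [hcard]
        positivity
      have hle : ∑ p : Equiv.Perm X, ind (sg (nx (YP sg p) B 1 w) ≠ sg w) ≤
          ∑ p : Equiv.Perm X, ind (∀ s ∈ B.image sg, rk X (p (sg w)) ≤ rk X (p s)) :=
        Finset.sum_le_sum fun p _ => ind_mono fun hne => (hSc X K sg p B w hw hB hne).1
      rw [hHn, mul_one_div, le_div_iff₀ hpos]
      exact (mul_le_mul_of_nonneg_right hle hpos.le).trans (hPm X (B.image sg) (sg w))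
  · unfold Hn
    exact Finset.sum_nonneg fun k _ => by positivity
  · have h1 : Hn sg B ≤ ∑ k ∈ range (Fintype.card X), 1 / ((k : ℝ) + 1) := by
      unfold Hn
      refine Finset.sum_le_sum_of_subset_of_nonneg ?_ (fun k _ _ => by positivity)
      exact Finset.range_subset_range.2 (Finset.card_le_univ _)
    refine h1.trans ?_
    have h2 := harmonic_le_one_add_log (Fintype.card X)
    refine le_trans (le_of_eq ?_) h2
    unfold harmonic
    push_cast
    exact Finset.sum_congr rfl fun k _ => by rw [one_div]

end Pool.Agent.AM
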