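import Pool.Agent.Lib.AM.SpecC
import Pool.Agent.Lib.AM.SpecH

set_option linter.all false

/-! AM, part H: the expected number of hits. -/

namespace Pool.Agent.AM

open Finset Pool.Agent.MP_a4c1f4_lc Pool.Agent.MP_a4c1f4_lc.Dbl

section
variable {X K : Type} [Fintype X] [DecidableEq X] [Nonempty X] [Fintype K] [DecidableEq K]
  [Nonempty K]

private theorem Ht_lC (sg : K → X) (cl : X → List X) (l : List K) (C : List X)
    (h : ∀ x ∈ l, cl (sg x) = C) : lC sg cl l C = l := by
  unfold lC
  exact List.filter_eq_self.mpr (fun x hx => by simpa using h x hx)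

private theorem Ht_US (B : Blk X) (sg : K → X) (Lam : ℝ) (N : ℕ) (cl : X → List X)
    (G : ℕ → X → ℕ) (l : List K) (C : List X) (h : ∀ x ∈ l, cl (sg x) = C) :
    B.US sg Lam N cl G l C = usedR (B.c sg Lam N cl G) l := by
  unfold Blk.US
  rw [Ht_lC sg cl l C h]

private theorem Ht_dr (B : Blk X) (sg : K → X) (Lam : ℝ) (N : ℕ) (cl : X → List X)
    (G : ℕ → X → ℕ) (l : List K) (C : List X) (h : ∀ x ∈ l, cl (sg x) = C) :
    B.dr sg Lam N cl G l C = l.length - (usedR (B.c sg Lam N cl G) l).card := by
  unfold Blk.dr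
  rw [Ht_US B sg Lam N cl G l C h, Ht_lC sg cl l C h]

private theorem Ht_nv (B : Blk X) (sg : K → X) (Lam : ℝ) (N : ℕ) (cl : X → List X)
    (G : ℕ → X → ℕ) (q : ℕ → Equiv.Perm X) (z : K) (l : List K) (w : K)
    (h : B.VS sg Lam N cl G q (z :: l) (cl (sg z)) =
      insert w (B.VS sg Lam N cl G q l (cl (sg z))))
    (hw : w ∉ B.VS sg Lam N cl G q l (cl (sg z))) :
    B.nv sg Lam N cl G q z l = w := by
  unfold Blk.nv
  have hex : ∃ v, v ∈ B.VS sg Lam N cl G q (z :: l) (cl (sg z)) ∧
      v ∉ B.VS sg Lam N cl G q l (cl (sg z)) :=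
    ⟨w, by rw [h]; exact mem_insert_self _ _, hw⟩
  rw [dif_pos hex]
  have h1 := hex.choose_spec
  generalize hex.choose = v at h1 ⊢
  rw [h] at h1
  rcases mem_insert.mp h1.1 with h2 | h2
  · exact h2
  · exact absurd h2 h1.2

private theorem Ht_ind (hUr : UrProp) (hWw : WwProp) (hPs : PshProp) (B : Blk X) (sg : K → X)
    (Lam : ℝ) (N : ℕ) (D : X → X → ℝ) (cl : X → List X) (G : ℕ → X → ℕ) (C : List X)
    (hB : B.OK Lam N D cl) (hG : ∀ i z, G i z ≤ N) :
    ∀ l : List K, (∀ x ∈ l, cl (sg x) = C) → l.length ≤ Fintype.card K →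
      l.length ≤ (aC sg cl C).card →
      usedR (B.c sg Lam N cl G) l ⊆ aC sg cl C ∧
      (usedR (B.c sg Lam N cl G) l).card ≤ l.length ∧
      ∑ q : Fin (Fintype.card K) → Equiv.Perm X,
        psum (fun z l => ind (B.Hit sg Lam N cl G (extP q) z l)) l ≤
      ∑ q : Fin (Fintype.card K) → Equiv.Perm X,
        Ph sg (extP q) (aC sg cl C) (usedR (B.c sg Lam N cl G) l)
          (l.length - (usedR (B.c sg Lam N cl G) l).card) := by
  intro l
  induction l with
  | nil =>
    intro _ _ _
    have h0 : usedR (B.c sg Lam N cl G) ([] : List K) = ∅ := by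
      unfold usedR
      simp [used]
    refine ⟨by rw [h0]; exact empty_subset _, by rw [h0]; simp, ?_⟩
    refine Finset.sum_le_sum fun q _ => ?_
    show (0 : ℝ) ≤ _
    exact ((hPs X K sg _ _ (Classical.arbitrary K) _).2 (extP q)).2.2
  | cons z l ih =>
    intro hC hk hA
    have hCl : ∀ x ∈ l, cl (sg x) = C := fun x hx => hC x (List.mem_cons_of_mem _ hx)
    have hz : cl (sg z) = C := hC z List.mem_cons_self
    simp only [List.length_cons] at hk hA
    obtain ⟨ihs, ihc, ihsum⟩ := ih hCl (by omega) (by omega)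
    obtain ⟨hre, hdu⟩ := (hUr X K B sg Lam N D cl G C hB hG).2 z l hC hk
    have hps : ∀ q : Fin (Fintype.card K) → Equiv.Perm X,
        psum (fun z l => ind (B.Hit sg Lam N cl G (extP q) z l)) (z :: l) =
        psum (fun z l => ind (B.Hit sg Lam N cl G (extP q) z l)) l +
          ind (B.Hit sg Lam N cl G (extP q) z l) := fun q => rfl
    rw [Finset.sum_congr rfl fun q _ => hps q, Finset.sum_add_distrib]
    have hlen : (z :: l).length = l.length + 1 := rfl
    rw [hlen]
    rcases hsv : sv (B.c sg Lam N cl G) z l with y | y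
    · obtain ⟨hyC, hyF, hU⟩ := hre y hsv
      have hyA : y ∈ aC sg cl C := by
        unfold aC
        simp [hyC]
      have hcI : (insert y (usedR (B.c sg Lam N cl G) l)).card =
          (usedR (B.c sg Lam N cl G) l).card + 1 := card_insert_of_notMem hyF
      have hVl : ∀ q, B.VS sg Lam N cl G q l (cl (sg z)) =
          FF sg q (aC sg cl C) (usedR (B.c sg Lam N cl G) l)
            (l.length - (usedR (B.c sg Lam N cl G) l).card) := by
        intro q
        unfold Blk.VS
        rw [hz, Ht_US B sg Lam N cl G l C hCl, Ht_dr B sg Lam N cl G l C hCl]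
      have hVz : ∀ q, B.VS sg Lam N cl G q (z :: l) (cl (sg z)) =
          FF sg q (aC sg cl C) (insert y (usedR (B.c sg Lam N cl G) l))
            (l.length - (usedR (B.c sg Lam N cl G) l).card) := by
        intro q
        unfold Blk.VS
        rw [hz, Ht_US B sg Lam N cl G (z :: l) C hC, Ht_dr B sg Lam N cl G (z :: l) C hC, hU,
          hcI, hlen, Nat.add_sub_add_right]
      rw [hU, hcI, Nat.add_sub_add_right]
      have hfit : (usedR (B.c sg Lam N cl G) l).card + 1 +
          (l.length - (usedR (B.c sg Lam N cl G) l).card) ≤ (aC sg cl C).card := by omega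
      refine ⟨?_, by omega, ?_⟩
      · intro v hv
        rcases mem_insert.mp hv with h | h
        · rw [h]; exact hyA
        · exact ihs h
      have hstep := (hPs X K sg (aC sg cl C) (usedR (B.c sg Lam N cl G) l) y
        (l.length - (usedR (B.c sg Lam N cl G) l).card)).1 ihs hyA hyF hfit
      have hhit : ∑ q : Fin (Fintype.card K) → Equiv.Perm X,
          ind (B.Hit sg Lam N cl G (extP q) z l) ≤
          ∑ q : Fin (Fintype.card K) → Equiv.Perm X,
            ind (sg (ww sg (extP q) (aC sg cl C) (usedR (B.c sg Lam N cl G) l) y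
              (l.length - (usedR (B.c sg Lam N cl G) l).card)) ≠ sg y) := by
        refine Finset.sum_le_sum fun q _ => ?_
        by_cases hh : B.Hit sg Lam N cl G (extP q) z l
        · obtain ⟨y', hy', hne⟩ := hh
          unfold Blk.svC at hy'
          rw [hz, Ht_lC sg cl l C hCl, hsv] at hy'
          have hyy : y = y' := by injection hy'
          have hW := hWw X K sg (extP q) (aC sg cl C) (usedR (B.c sg Lam N cl G) l) y
            (l.length - (usedR (B.c sg Lam N cl G) l).card) ihs hyA hyF hfit
          have hnv : B.nv sg Lam N cl G (extP q) z l =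
              ww sg (extP q) (aC sg cl C) (usedR (B.c sg Lam N cl G) l) y
              (l.length - (usedR (B.c sg Lam N cl G) l).card) := by
            apply Ht_nv
            · rw [hVz, hVl]
              exact hW.2.2.2.2
            · rw [hVl]
              exact hW.2.2.2.1
          rw [hnv, ← hyy] at hne
          rw [ind_true hne]
          exact ind_le_one _
        · rw [ind_false hh]
          exact ind_nonneg _
      rw [Finset.sum_sub_distrib] at hstep
      linarith
    · have hU := hdu y hsv
      rw [hU]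
      have hhit : ∑ q : Fin (Fintype.card K) → Equiv.Perm X,
          ind (B.Hit sg Lam N cl G (extP q) z l) = 0 := by
        refine Finset.sum_eq_zero fun q _ => ?_
        apply ind_false
        rintro ⟨y', hy', hne⟩
        unfold Blk.svC at hy'
        rw [hz, Ht_lC sg cl l C hCl, hsv] at hy'
        exact absurd hy' (by simp)
      rw [hhit, add_zero]
      refine ⟨ihs, by omega, ihsum.trans ?_⟩
      refine Finset.sum_le_sum fun q _ => ?_
      have h1 : l.length + 1 - (usedR (B.c sg Lam N cl G) l).card =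
          l.length - (usedR (B.c sg Lam N cl G) l).card + 1 := by omega
      rw [h1]
      exact ((hPs X K sg _ _ (Classical.arbitrary K) _).2 (extP q)).1

end

theorem htP : UrProp → WwProp → PshProp → HitProp := by
  intro hUr hWw hPs X K _ _ _ _ _ _ B sg Lam N D cl G l C hB hG hk hC hA
  obtain ⟨_, _, hsum⟩ := Ht_ind hUr hWw hPs B sg Lam N D cl G C hB hG l hC hk hA
  rw [Ht_dr B sg Lam N cl G l C hC]
  have hfac : (0 : ℝ) < ((Fintype.card X).factorial : ℝ) ^ Fintype.card K := by
    have : (0 : ℝ) < ((Fintype.card X).factorial : ℝ) := by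
      exact_mod_cast Nat.factorial_pos _
    positivity
  have hcard : ((univ : Finset (Fin (Fintype.card K) → Equiv.Perm X)).card : ℝ) =
      ((Fintype.card X).factorial : ℝ) ^ Fintype.card K := by
    rw [Finset.card_univ, Fintype.card_fun, Fintype.card_perm, Fintype.card_fin]
    push_cast
    rfl
  have h2 : ∑ q : Fin (Fintype.card K) → Equiv.Perm X,
        Ph sg (extP q) (aC sg cl C) (usedR (B.c sg Lam N cl G) l)
          (l.length - (usedR (B.c sg Lam N cl G) l).card) ≤
      ((Fintype.card X).factorial : ℝ) ^ Fintype.card K *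
        ((1 + Real.log (Fintype.card X)) *
          ((l.length - (usedR (B.c sg Lam N cl G) l).card : ℕ) : ℝ)) := by
    rw [← hcard, ← nsmul_eq_mul, ← Finset.sum_const]
    refine Finset.sum_le_sum fun q _ => ?_
    exact ((hPs X K sg _ _ (Classical.arbitrary K) _).2 (extP q)).2.1
  have h3 := hsum.trans h2
  calc (1 / ((Fintype.card X).factorial : ℝ) ^ Fintype.card K) *
      ∑ q : Fin (Fintype.card K) → Equiv.Perm X,
        psum (fun z l => ind (B.Hit sg Lam N cl G (extP q) z l)) l
      ≤ (1 / ((Fintype.card X).factorial : ℝ) ^ Fintype.card K) *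
        (((Fintype.card X).factorial : ℝ) ^ Fintype.card K *
        ((1 + Real.log (Fintype.card X)) *
          ((l.length - (usedR (B.c sg Lam N cl G) l).card : ℕ) : ℝ))) :=
        mul_le_mul_of_nonneg_left h3 (by positivity)
    _ = _ := by
        rw [← mul_assoc, one_div, inv_mul_cancel₀ hfac.ne', one_mul]

end Pool.Agent.AM
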