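import Pool.Agent.Lib.AM.SpecH

set_option linter.all false

/-!
# AM, H/Ps: one step of the potential
-/

namespace Pool.Agent.AM

open Finset Pool.Agent.MP_a4c1f4_lc Pool.Agent.MP_a4c1f4_lc.Dbl

private theorem HPs_ind1 {p : Prop} (h : p) : ind p = 1 := by
  unfold ind
  exact if_pos h

private theorem HPs_ind0 {p : Prop} (h : ¬ p) : ind p = 0 := by
  unfold ind
  exact if_neg h

private theorem HPs_chain {S : Type} (a : ℕ → S) (z : S) (h0 : a 0 = z) (d : ℕ) :
    ind (a d ≠ z) ≤ ∑ i ∈ range d, ind (a (i + 1) ≠ a i) := by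
  induction d with
  | zero =>
    rw [HPs_ind0 (fun h => h h0)]
    simp
  | succ d ih =>
    rw [Finset.sum_range_succ]
    by_cases h : a (d + 1) = a d
    · have h1 : ind (a (d + 1) ≠ a d) = 0 := HPs_ind0 (fun h' => h' h)
      rw [h1, h, add_zero]
      exact ih
    · have h1 := ind_nonneg (a d ≠ z)
      have h2 := ind_le_one (a (d + 1) ≠ z)
      rw [HPs_ind1 h]
      linarith

theorem pshP : TkProp → HnProp → PshProp := by
  intro hTk hHn X K _ _ _ _ _ _ sg A F y d
  refine ⟨?_, ?_⟩
  · intro hFA hyA hyF hc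
    calc ∑ q : Fin (Fintype.card K) → Equiv.Perm X, ind (sg (ww sg (extP q) A F y d) ≠ sg y)
        ≤ ∑ q : Fin (Fintype.card K) → Equiv.Perm X, ∑ i ∈ range d,
            ind (sg (ww sg (extP q) A F y (i + 1)) ≠ sg (ww sg (extP q) A F y i)) :=
          Finset.sum_le_sum fun q _ =>
            HPs_chain (fun i => sg (ww sg (extP q) A F y i)) (sg y) rfl d
      _ = ∑ i ∈ range d, ∑ q : Fin (Fintype.card K) → Equiv.Perm X,
            ind (sg (ww sg (extP q) A F y (i + 1)) ≠ sg (ww sg (extP q) A F y i)) :=
          Finset.sum_comm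
      _ ≤ ∑ i ∈ range d, ∑ q : Fin (Fintype.card K) → Equiv.Perm X,
            (Hn sg (A \ FF sg (extP q) A F i) - Hn sg (A \ FF sg (extP q) A (insert y F) i)) := by
          refine Finset.sum_le_sum fun i hi => hTk X K sg A F y i hFA hyA hyF ?_
          have := Finset.mem_range.1 hi
          omega
      _ = ∑ q : Fin (Fintype.card K) → Equiv.Perm X, ∑ i ∈ range d,
            (Hn sg (A \ FF sg (extP q) A F i) - Hn sg (A \ FF sg (extP q) A (insert y F) i)) :=
          Finset.sum_comm
      _ = ∑ q : Fin (Fintype.card K) → Equiv.Perm X,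
          (Ph sg (extP q) A (insert y F) d - Ph sg (extP q) A F d) := by
          refine Finset.sum_congr rfl fun q _ => ?_
          unfold Ph
          rw [← Finset.sum_sub_distrib]
          refine Finset.sum_congr rfl fun i _ => ?_
          ring
  · intro q
    have hb : ∀ i, 0 ≤ Hn sg (A \ FF sg q A F i) ∧
        Hn sg (A \ FF sg q A F i) ≤ 1 + Real.log (Fintype.card X) :=
      fun i => (hHn X K sg (A \ FF sg q A F i) y).2
    refine ⟨?_, ?_, ?_⟩
    · unfold Ph
      rw [Finset.sum_range_succ]
      have := (hb d).2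
      linarith
    · unfold Ph
      calc ∑ i ∈ range d, (1 + Real.log (Fintype.card X) - Hn sg (A \ FF sg q A F i))
          ≤ ∑ i ∈ range d, (1 + Real.log (Fintype.card X)) := by
            refine Finset.sum_le_sum fun i _ => ?_
            have := (hb i).1
            linarith
        _ = (1 + Real.log (Fintype.card X)) * d := by
            rw [Finset.sum_const, Finset.card_range, nsmul_eq_mul, mul_comm]
    · unfold Ph
      refine Finset.sum_nonneg fun i _ => ?_
      have := (hb i).2
      linarith

end Pool.Agent.AM
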