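import Pool.Agent.Lib.AM.SpecH
import Pool.Agent.Lib.MP_a4c1f4_lc.Dbl.Top

set_option autoImplicit false
set_option linter.all false

/-!
# AM: change of the site of a token
-/

namespace Pool.Agent.AM

open Finset Pool.Agent.MP_a4c1f4_lc Pool.Agent.MP_a4c1f4_lc.Dbl

private theorem HSc_first {T : Type} [Fintype T] {Y : T → ℝ} {A : Finset T} {w : T}
    (h : w ∈ tp Y A 1) : ∀ v ∈ A, ¬ Bt Y v w := by
  classical
  intro v hv hb
  have h1 := (TopM.mem_tp.1 h).2
  have h2 : 0 < rnk Y A w := by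
    unfold rnk
    exact Finset.card_pos.2 ⟨v, Finset.mem_filter.2 ⟨hv, hb⟩⟩
  omega

theorem schP : TopProp → DelProp → SchProp := by
  intro _ hDel X K _ _ _ _ _ _ sg p B w hw hB hne
  have hD := hDel K (YP sg p) B 1 w hw hB
  have hin : w ∈ tp (YP sg p) B 1 := by
    by_contra h
    exact hne (by rw [(hD.1 h).1])
  obtain ⟨h1, h2, h3, h4, h5⟩ := hD.2.1 hin
  have hf := HSc_first hin
  constructor
  · intro s hs
    obtain ⟨v, hv, rfl⟩ := mem_image.1 hs
    have hb : ¬ (YP sg p w < YP sg p v) := fun h => hf v hv (Or.inl h)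
    have hc := not_lt.1 hb
    unfold YP at hc
    have hd : ((rk X (p (sg w)) : ℕ) : ℝ) ≤ ((rk X (p (sg v)) : ℕ) : ℝ) := neg_le_neg_iff.1 hc
    exact_mod_cast hd
  · intro v hv hvw heq
    have hw' : nx (YP sg p) B 1 w ∈ tp (YP sg p) (B.erase w) 1 := by
      rw [h4]
      exact mem_insert_self _ _
    have hf' := HSc_first hw' v (mem_erase.2 ⟨hvw, hv⟩)
    apply hf'
    left
    have e1 : YP sg p v = YP sg p w := by
      unfold YP
      rw [heq]
    have e2 : ¬ YP sg p w < YP sg p (nx (YP sg p) B 1 w) := fun h => hf _ h1 (Or.inl h)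
    have e3 : YP sg p (nx (YP sg p) B 1 w) ≠ YP sg p w := by
      intro h
      apply hne
      obtain ⟨w', hw'⟩ : ∃ w', w' = nx (YP sg p) B 1 w := ⟨_, rfl⟩
      rw [← hw'] at h ⊢
      unfold YP at h
      have h7 := neg_injective h
      have h6 : rk X (p (sg w')) = rk X (p (sg w)) := by
        exact_mod_cast h7
      exact p.injective (TopM.rk_inj h6)
    rw [e1]
    exact lt_of_le_of_ne (not_lt.1 e2) e3

end Pool.Agent.AM
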