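import Pool.Agent.Lib.AM.SpecH

set_option linter.all false

/-!
# AM, part H, file Tk: one token, one real step, all orders

`FF A F i` and `ww i` do not depend on the order of the token `i`; so for fixed other orders the
probability that the site changes is bounded by `HnProp`.
-/

namespace Pool.Agent.AM

open Finset Pool.Agent.MP_a4c1f4_lc Pool.Agent.MP_a4c1f4_lc.Dbl

private theorem HTk_upd_lt {X : Type} {k : ℕ} (q : Fin k → Equiv.Perm X) (i : Fin k)
    (p : Equiv.Perm X) (j : ℕ) (hj : j < i.val) :
    extP (Function.update q i p) j = extP q j := by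
  unfold extP
  have hjk : j < k := lt_trans hj i.isLt
  rw [dif_pos hjk, dif_pos hjk]
  apply Function.update_of_ne
  intro h
  have h2 := congrArg Fin.val h
  simp only at h2
  omega

private theorem HTk_upd_eq {X : Type} {k : ℕ} (q : Fin k → Equiv.Perm X) (i : Fin k)
    (p : Equiv.Perm X) : extP (Function.update q i p) i.val = p := by
  unfold extP
  rw [dif_pos i.isLt]
  simp

theorem tkP : WwProp → HnProp → DepProp → TkProp := by
  intro hW hH hD X K _ _ _ _ _ _ sg A F y i hFA hyA hyF hcard
  obtain ⟨hD1, hD2⟩ := hD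
  have hik : i < Fintype.card K := by
    have h0 := Finset.card_le_univ A
    omega
  have hpos : (0 : ℝ) < ((Fintype.card X).factorial : ℝ) := by
    exact_mod_cast Nat.factorial_pos _
  have key : ((Fintype.card X).factorial : ℝ) *
      ∑ q : Fin (Fintype.card K) → Equiv.Perm X,
        ind (sg (ww sg (extP q) A F y (i + 1)) ≠ sg (ww sg (extP q) A F y i)) ≤
      ((Fintype.card X).factorial : ℝ) *
      ∑ q : Fin (Fintype.card K) → Equiv.Perm X,
        (Hn sg (A \ FF sg (extP q) A F i) - Hn sg (A \ FF sg (extP q) A (insert y F) i)) := by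
    have h2 := hD2 (Equiv.Perm X) (Fintype.card K) ⟨i, hik⟩
      (fun q => ind (sg (ww sg (extP q) A F y (i + 1)) ≠ sg (ww sg (extP q) A F y i)))
    rw [Fintype.card_perm] at h2
    rw [h2, Finset.mul_sum]
    apply Finset.sum_le_sum
    intro q _
    obtain ⟨h1, hc, h3, h4, h5⟩ := hW X K sg (extP q) A F y i hFA hyA hyF (by omega)
    have hupd : ∀ p : Equiv.Perm X,
        FF sg (extP (Function.update q ⟨i, hik⟩ p)) A F i = FF sg (extP q) A F i ∧
        ww sg (extP (Function.update q ⟨i, hik⟩ p)) A F y i = ww sg (extP q) A F y i :=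
      fun p => hD1 X K sg (extP (Function.update q ⟨i, hik⟩ p)) (extP q) A F y i
        (fun j hj => HTk_upd_lt q ⟨i, hik⟩ p j hj)
    have hww : ∀ p : Equiv.Perm X,
        ww sg (extP (Function.update q ⟨i, hik⟩ p)) A F y (i + 1) =
          nx (YP sg p) (A \ FF sg (extP q) A F i) 1 (ww sg (extP q) A F y i) := by
      intro p
      have e : ww sg (extP (Function.update q ⟨i, hik⟩ p)) A F y (i + 1) =
          nx (YP sg (extP (Function.update q ⟨i, hik⟩ p) i))
            (A \ FF sg (extP (Function.update q ⟨i, hik⟩ p)) A F i) 1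
            (ww sg (extP (Function.update q ⟨i, hik⟩ p)) A F y i) := rfl
      have e2 : extP (Function.update q ⟨i, hik⟩ p) i = p := HTk_upd_eq q ⟨i, hik⟩ p
      rw [e, (hupd p).1, (hupd p).2, e2]
    have hwB : ww sg (extP q) A F y i ∈ A \ FF sg (extP q) A F i :=
      Finset.mem_sdiff.2 ⟨h3, h4⟩
    have hBc : 1 < (A \ FF sg (extP q) A F i).card := by
      rw [Finset.card_sdiff_of_subset h1]
      omega
    have hH1 := (hH X K sg (A \ FF sg (extP q) A F i) (ww sg (extP q) A F y i)).1 hwB hBc
    have herase : A \ FF sg (extP q) A (insert y F) i =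
        (A \ FF sg (extP q) A F i).erase (ww sg (extP q) A F y i) := by
      rw [h5]
      ext v
      simp only [Finset.mem_sdiff, Finset.mem_insert, Finset.mem_erase, not_or]
      tauto
    rw [herase]
    refine le_trans (le_of_eq ?_) hH1
    apply Finset.sum_congr rfl
    intro p _
    simp only [hww p, (hupd p).2]
  exact le_of_mul_le_mul_left key hpos

end Pool.Agent.AM
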