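import Pool.Agent.Lib.AM.H.Ww
import Pool.Agent.Lib.AM.H.Sc
import Pool.Agent.Lib.AM.H.Hn
import Pool.Agent.Lib.AM.H.Dep
import Pool.Agent.Lib.AM.H.Tk
import Pool.Agent.Lib.AM.H.Ps
import Pool.Agent.Lib.AM.H.Ht
import Pool.Agent.Lib.MP_a4c1f4_lc.Dbl.Top
import Pool.Agent.Lib.MP_a4c1f4_lc.Dbl.Del
import Pool.Agent.Lib.MP_a4c1f4_lc.Perm

set_option linter.all false

/-! AM, part H: assembly. -/

namespace Pool.Agent.AM

open Finset Pool.Agent.MP_a4c1f4_lc Pool.Agent.MP_a4c1f4_lc.Dbl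

theorem hitAll (hUr : UrProp) : HitProp :=
  have hT : TopProp := Pool.Agent.MP_a4c1f4_lc.Dbl.topP
  have hD : DelProp := Pool.Agent.MP_a4c1f4_lc.Dbl.delP hT
  have hW : WwProp := wwP hT hD
  have hH : HnProp := hnP Pool.Agent.MP_a4c1f4_lc.permP (schP hT hD)
  htP hUr hW (pshP (tkP hW hH depP) hH)

end Pool.Agent.AM
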