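import Pool.Agent.Lib.AM.SpecH

set_option linter.all false

/-!
# AM, part H: one step of the tokens
-/

namespace Pool.Agent.AM

open Finset Pool.Agent.MP_a4c1f4_lc Pool.Agent.MP_a4c1f4_lc.Dbl

private theorem HWw_sub {T : Type} [Fintype T] (Y : T → ℝ) (A : Finset T) (n : ℕ) : tp Y A n ⊆ A := by
  unfold tp
  exact Finset.filter_subset _ _

theorem wwP : TopProp → DelProp → WwProp := by
  intro hTop hDel X K _ _ _ _ _ _ sg q A F y i hFA hyA hyF
  induction i with
  | zero =>
    intro _
    refine ⟨hFA, rfl, hyA, hyF, rfl⟩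
  | succ i ih =>
    intro hcard
    obtain ⟨h1, h2, h3, h4, h5⟩ := ih (by omega)
    set Fi := FF sg q A F i with hFi
    set w := ww sg q A F y i with hw
    have e1 : FF sg q A F (i + 1) = Fi ∪ tp (YP sg (q i)) (A \ Fi) 1 := rfl
    have e2 : ww sg q A F y (i + 1) = nx (YP sg (q i)) (A \ Fi) 1 w := rfl
    have e3 : FF sg q A (insert y F) (i + 1) =
        insert w Fi ∪ tp (YP sg (q i)) ((A \ Fi).erase w) 1 := by
      show FF sg q A (insert y F) i ∪ tp (YP sg (q i)) (A \ FF sg q A (insert y F) i) 1 = _
      rw [h5, Finset.sdiff_insert]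
    have hwA : w ∈ A \ Fi := Finset.mem_sdiff.2 ⟨h3, h4⟩
    have hc : (A \ Fi).card = A.card - (F.card + i) := by
      rw [Finset.card_sdiff_of_subset h1, h2]
    have hc2 : 1 < (A \ Fi).card := by omega
    have hsub := HWw_sub (YP sg (q i)) (A \ Fi) 1
    have hcd : (tp (YP sg (q i)) (A \ Fi) 1).card = 1 := by
      rw [(hTop K (YP sg (q i)) (A \ Fi) 1).1]
      omega
    obtain ⟨hD1, hD2, _⟩ := hDel K (YP sg (q i)) (A \ Fi) 1 w hwA hc2
    have hdis : Disjoint Fi (tp (YP sg (q i)) (A \ Fi) 1) := by
      rw [Finset.disjoint_left]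
      intro v hv hv'
      exact (Finset.mem_sdiff.1 (hsub hv')).2 hv
    rw [e1, e2, e3]
    refine ⟨?_, ?_, ?_⟩
    · exact Finset.union_subset h1 (hsub.trans Finset.sdiff_subset)
    · rw [Finset.card_union_of_disjoint hdis, h2, hcd]
      omega
    · by_cases hwt : w ∈ tp (YP sg (q i)) (A \ Fi) 1
      · obtain ⟨d1, d2, d3, d4, _⟩ := hD2 hwt
        have htp : tp (YP sg (q i)) (A \ Fi) 1 = {w} := by
          obtain ⟨v, hv⟩ := Finset.card_eq_one.1 hcd
          rw [hv] at hwt ⊢
          rw [Finset.mem_singleton.1 hwt]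
        obtain ⟨d1a, d1b⟩ := Finset.mem_sdiff.1 d1
        refine ⟨d1a, ?_, ?_⟩
        · rw [Finset.mem_union]
          rintro (h | h)
          · exact d1b h
          · exact d2 h
        · rw [d4]
          set w' := nx (YP sg (q i)) (A \ Fi) 1 w with hw'
          rw [htp]
          ext v
          simp only [Finset.mem_union, Finset.mem_insert, Finset.mem_erase, Finset.mem_singleton]
          constructor
          · rintro ((h | h) | (h | h))
            · exact Or.inr (Or.inr h)
            · exact Or.inr (Or.inl h)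
            · exact Or.inl h
            · exact absurd h.2 h.1
          · rintro (h | (h | h))
            · exact Or.inr (Or.inl h)
            · exact Or.inl (Or.inr h)
            · exact Or.inl (Or.inl h)
      · obtain ⟨d1, d2, _⟩ := hD1 hwt
        rw [d1, d2]
        refine ⟨h3, ?_, ?_⟩
        · rw [Finset.mem_union]
          rintro (h | h)
          · exact h4 h
          · exact hwt h
        · rw [Finset.insert_union]

end Pool.Agent.AM
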